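import Mathlib
import Pool.Agent.Helper98.NoisyTree.Defs
import Pool.Agent.Helper98.NoisyTree.Proof

/-!
# Almost sure convergence of the noisy tree min-max value (MP_63799c_pr, Q1)

The definitions of the game are in `Pool/Agent/Helper98/NoisyTree/Defs.lean`, the proof is in
`Pool/Agent/Helper98/NoisyTree/Proof.lean`.
-/

open MeasureTheory ProbabilityTheory Filter Topology

namespace Pool.Agent.Results.MP_63799c_pr.AlmostSureConvergence

open Pool.Agent.Helper98.NoisyTree

/-- **Almost sure convergence of the noisy tree min-max value for every `d ≥ 3`.**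
For i.i.d. cookies on the edges of the infinite `d`-ary tree, each `1` or `-1` with probability
`1/2`, on any probability space, the sequence `V_n` converges almost surely to an integer. -/
theorem result (d : ℕ) (hd : 3 ≤ d) {Ω : Type*} [MeasurableSpace Ω] (μ : Measure Ω)
    [IsProbabilityMeasure μ] (X : Edge d → Ω → ℤ) (hmeas : ∀ e, Measurable (X e))
    (hindep : iIndepFun X μ) (hpos : ∀ e, μ {ω | X e ω = 1} = 1 / 2)
    (hneg : ∀ e, μ {ω | X e ω = -1} = 1 / 2) :
    ∀ᵐ ω ∂μ, ∃ L : ℤ, Tendsto (fun n => V (fun e => X e ω) n) atTop (𝓝 L) :=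
  main d hd μ X hmeas hindep hpos hneg

end Pool.Agent.Results.MP_63799c_pr.AlmostSureConvergence
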